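import Pool.Agent.Helper68.BA.Defs

/-!
Carlson type inequalities (MP_3dd6d4_an, module CA).
-/

set_option autoImplicit false

noncomputable section

namespace Pool.Agent.Helper68.BA

open MeasureTheory Set Filter Topology Complex
open scoped ContDiff

private lemma inv_deriv (y0 δ : ℝ) (hδ : 0 < δ) (x : ℝ) :
    HasDerivAt (fun u => Real.arctan ((u - y0) / δ) / δ) (1 / ((x - y0) ^ 2 + δ ^ 2)) x := by
  have h1 : HasDerivAt (fun u : ℝ => (u - y0) / δ) (1 / δ) x :=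
    ((hasDerivAt_id x).sub_const y0).div_const δ
  have h2 := (h1.arctan).div_const δ
  refine h2.congr_deriv ?_
  have h3 : (x - y0) ^ 2 + δ ^ 2 ≠ 0 := by positivity
  have h4 : 1 + ((x - y0) / δ) ^ 2 = ((x - y0) ^ 2 + δ ^ 2) / δ ^ 2 := by
    field_simp
    ring
  rw [h4]
  field_simp

private lemma inv_tendsto (y0 δ : ℝ) (hδ : 0 < δ) :
    Tendsto (fun u => Real.arctan ((u - y0) / δ) / δ) atTop (𝓝 (Real.pi / 2 / δ)) := by
  have h1 : Tendsto (fun u : ℝ => (u - y0) / δ) atTop atTop :=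
    (tendsto_atTop_add_const_right _ _ tendsto_id).atTop_div_const hδ
  have h2 : Tendsto Real.arctan atTop (𝓝 (Real.pi / 2)) :=
    Real.tendsto_arctan_atTop.mono_right nhdsWithin_le_nhds
  exact (h2.comp h1).div_const δ

private lemma inv_integrable (y0 δ : ℝ) (hδ : 0 < δ) :
    IntegrableOn (fun u => 1 / ((u - y0) ^ 2 + δ ^ 2)) (Ioi 0) :=
  integrableOn_Ioi_deriv_of_nonneg' (fun x _ => inv_deriv y0 δ hδ x)
    (fun x _ => by positivity) (inv_tendsto y0 δ hδ)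

private lemma inv_integral (y0 δ : ℝ) (hδ : 0 < δ) :
    ∫ u in Ioi (0 : ℝ), 1 / ((u - y0) ^ 2 + δ ^ 2) =
      Real.pi / 2 / δ - Real.arctan ((0 - y0) / δ) / δ :=
  integral_Ioi_of_hasDerivAt_of_nonneg' (fun x _ => inv_deriv y0 δ hδ x)
    (fun x _ => by positivity) (inv_tendsto y0 δ hδ)

private lemma carlson_aux (f : ℝ → ℝ) (hf : Continuous f) (y0 δ : ℝ) (hδ : 0 < δ)
    (h : IntegrableOn (fun u => ((u - y0) ^ 2 + δ ^ 2) * f u ^ 2) (Ioi 0)) :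
    IntegrableOn f (Ioi 0) ∧
    (∫ u in Ioi (0 : ℝ), |f u|) ^ 2 ≤
      (∫ u in Ioi (0 : ℝ), 1 / ((u - y0) ^ 2 + δ ^ 2)) *
        ∫ u in Ioi (0 : ℝ), ((u - y0) ^ 2 + δ ^ 2) * f u ^ 2 := by
  have hJ := inv_integrable y0 δ hδ
  have hint : IntegrableOn f (Ioi 0) := by
    refine Integrable.mono' ((h.add hJ).div_const 2) hf.aestronglyMeasurable ?_
    refine Eventually.of_forall fun u => ?_
    have hA : 0 < (u - y0) ^ 2 + δ ^ 2 := by positivity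
    rw [Real.norm_eq_abs]
    show |f u| ≤ (((u - y0) ^ 2 + δ ^ 2) * f u ^ 2 + 1 / ((u - y0) ^ 2 + δ ^ 2)) / 2
    have h1 : 0 ≤ ((u - y0) ^ 2 + δ ^ 2) * (|f u| - 1 / ((u - y0) ^ 2 + δ ^ 2)) ^ 2 := by
      positivity
    have h2 : ((u - y0) ^ 2 + δ ^ 2) * (|f u| - 1 / ((u - y0) ^ 2 + δ ^ 2)) ^ 2 =
        ((u - y0) ^ 2 + δ ^ 2) * f u ^ 2 - 2 * |f u| + 1 / ((u - y0) ^ 2 + δ ^ 2) := by
      rw [← sq_abs (f u)]
      field_simp
      ring
    linarith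
  refine ⟨hint, ?_⟩
  set A : ℝ → ℝ := fun u => (u - y0) ^ 2 + δ ^ 2 with hAdef
  have hquad : ∀ t : ℝ, 0 ≤ (∫ u in Ioi (0 : ℝ), 1 / A u) * (t * t) +
      (-2 * ∫ u in Ioi (0 : ℝ), |f u|) * t + ∫ u in Ioi (0 : ℝ), A u * f u ^ 2 := by
    intro t
    have h1 : 0 ≤ ∫ u in Ioi (0 : ℝ), A u * (|f u| - t / A u) ^ 2 :=
      integral_nonneg fun u => by
        have hA : 0 < A u := by simp only [hAdef]; positivity
        positivity
    have h2 : (fun u => A u * (|f u| - t / A u) ^ 2) = fun u =>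
        (t * t) * (1 / A u) + (-2 * t) * |f u| + A u * f u ^ 2 := by
      funext u
      have hA : A u ≠ 0 := by
        have : 0 < A u := by simp only [hAdef]; positivity
        exact this.ne'
      rw [← sq_abs (f u)]
      field_simp
      ring
    rw [h2] at h1
    have i1 : IntegrableOn (fun u => (t * t) * (1 / A u)) (Ioi 0) := hJ.const_mul _
    have i2 : IntegrableOn (fun u => (-2 * t) * |f u|) (Ioi 0) := hint.abs.const_mul _
    have e1 : ∫ u in Ioi (0 : ℝ), ((t * t) * (1 / A u) + (-2 * t) * |f u| + A u * f u ^ 2) =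
        (∫ u in Ioi (0 : ℝ), ((t * t) * (1 / A u) + (-2 * t) * |f u|)) +
          ∫ u in Ioi (0 : ℝ), A u * f u ^ 2 := integral_add (i1.add i2) h
    have e2 : ∫ u in Ioi (0 : ℝ), ((t * t) * (1 / A u) + (-2 * t) * |f u|) =
        (∫ u in Ioi (0 : ℝ), (t * t) * (1 / A u)) + ∫ u in Ioi (0 : ℝ), (-2 * t) * |f u| :=
      integral_add i1 i2
    rw [e1, e2, integral_const_mul, integral_const_mul] at h1
    linarith
  have hd := discrim_le_zero hquad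
  rw [discrim] at hd
  nlinarith

theorem carlson_shift (f : ℝ → ℝ) (hf : Continuous f) (y0 δ : ℝ) (hδ : 0 < δ)
    (h : IntegrableOn (fun u => ((u - y0) ^ 2 + δ ^ 2) * f u ^ 2) (Ioi 0)) :
    IntegrableOn f (Ioi 0) ∧
    (∫ u in Ioi (0 : ℝ), |f u|) ^ 2 ≤
      (Real.pi / δ) * ∫ u in Ioi (0 : ℝ), ((u - y0) ^ 2 + δ ^ 2) * f u ^ 2 := by
  obtain ⟨h1, h2⟩ := carlson_aux f hf y0 δ hδ h
  refine ⟨h1, h2.trans (mul_le_mul_of_nonneg_right ?_ (integral_nonneg fun u => by positivity))⟩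
  rw [inv_integral y0 δ hδ]
  have h3 := Real.neg_pi_div_two_lt_arctan ((0 - y0) / δ)
  have h4 : -(Real.pi / 2) / δ ≤ Real.arctan ((0 - y0) / δ) / δ :=
    div_le_div_of_nonneg_right h3.le hδ.le
  have h5 : Real.pi / δ = Real.pi / 2 / δ - -(Real.pi / 2) / δ := by ring
  linarith

theorem carlson_zero (f : ℝ → ℝ) (hf : Continuous f) (δ : ℝ) (hδ : 0 < δ)
    (h : IntegrableOn (fun u => (u ^ 2 + δ ^ 2) * f u ^ 2) (Ioi 0)) :
    IntegrableOn f (Ioi 0) ∧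
    (∫ u in Ioi (0 : ℝ), |f u|) ^ 2 ≤
      (Real.pi / (2 * δ)) * ∫ u in Ioi (0 : ℝ), (u ^ 2 + δ ^ 2) * f u ^ 2 := by
  have h0 : (fun u : ℝ => (u ^ 2 + δ ^ 2) * f u ^ 2) =
      fun u => ((u - 0) ^ 2 + δ ^ 2) * f u ^ 2 := by
    funext u
    rw [sub_zero]
  rw [h0] at h ⊢
  obtain ⟨h1, h2⟩ := carlson_aux f hf 0 δ hδ h
  refine ⟨h1, h2.trans (le_of_eq ?_)⟩
  rw [inv_integral 0 δ hδ]
  congr 1
  rw [sub_zero, zero_div, Real.arctan_zero, zero_div, sub_zero, div_div]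

end Pool.Agent.Helper68.BA
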